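import Pool.Agent.N870.EC.Stm2

/-!
# EC/DEN8: the numbers of the residues (helper401)
-/

set_option autoImplicit false

namespace Pool.Agent.N401.EC

open Finset

open scoped Classical

theorem transfer (p : ℕ) [Fact p.Prime] (hp : 5 ≤ p) (P : ℕ × ℕ → Prop) [DecidablePred P]
    (Q : ZMod p × ZMod p → Prop) [DecidablePred Q]
    (h : ∀ t : ℕ × ℕ, P t ↔ Q (((t.1 : ℤ) : ZMod p), ((2 * t.2 : ℤ) : ZMod p))) :
    ((range p ×ˢ range p).filter P).card = (univ.filter Q).card := by
  have hm0 : (2 : ZMod p) ≠ 0 := by
    intro h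
    have h1 : ((2 : ℕ) : ZMod p) = 0 := by exact_mod_cast h
    rw [ZMod.natCast_eq_zero_iff] at h1
    have := Nat.le_of_dvd (by norm_num) h1
    omega
  have hval : ∀ a b : ℕ, a ∈ range p → b ∈ range p → (a : ZMod p) = b → a = b := by
    intro a b ha hb hab
    rw [mem_range] at ha hb
    have h1 := congrArg ZMod.val hab
    rwa [ZMod.val_cast_of_lt ha, ZMod.val_cast_of_lt hb] at h1
  refine Finset.card_bij
    (fun t _ => (((t.1 : ℤ) : ZMod p), ((2 * t.2 : ℤ) : ZMod p))) ?_ ?_ ?_
  · intro t ht
    rw [mem_filter] at ht ⊢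
    exact ⟨mem_univ _, (h t).1 ht.2⟩
  · rintro ⟨a, b⟩ h1 ⟨a', b'⟩ h2 h3
    rw [mem_filter, mem_product] at h1 h2
    rw [Prod.mk.injEq] at h3
    obtain ⟨h3, h4⟩ := h3
    push_cast at h3 h4
    have h5 : (b : ZMod p) = b' := mul_left_cancel₀ hm0 h4
    rw [hval a a' h1.1.1 h2.1.1 h3, hval b b' h1.1.2 h2.1.2 h5]
  · rintro ⟨a, b⟩ h1
    rw [mem_filter] at h1
    have h2 : ((((a.val : ℕ) : ℤ) : ZMod p), ((2 * ((b / 2 : ZMod p).val : ℕ) : ℤ) : ZMod p)) =
        (a, b) := by
      rw [Prod.mk.injEq]
      push_cast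
      rw [ZMod.natCast_zmod_val, ZMod.natCast_zmod_val, mul_div_cancel₀ _ hm0]
      exact ⟨rfl, rfl⟩
    refine ⟨(a.val, (b / 2 : ZMod p).val), ?_, h2⟩
    rw [mem_filter, mem_product, mem_range, mem_range]
    refine ⟨⟨ZMod.val_lt _, ZMod.val_lt _⟩, (h _).2 ?_⟩
    show Q _
    rw [h2]
    exact h1.2

theorem jac (p : ℕ) [Fact p.Prime] (a : ℤ) :
    jacobiSym a p = quadraticChar (ZMod p) (a : ZMod p) := by
  rw [← jacobiSym.legendreSym.to_jacobiSym]
  rfl

theorem card_ne (p : ℕ) [Fact p.Prime] :
    ((univ : Finset (ZMod p)).filter (fun a => a ≠ 0)).card = p - 1 := by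
  rw [filter_not, card_sdiff_of_subset (filter_subset _ _), card_univ, ZMod.card]
  congr 1
  rw [card_eq_one]
  exact ⟨0, by ext a; simp⟩

theorem cone (p : ℕ) [Fact p.Prime] (R : ZMod p → Prop) [DecidablePred R]
    {_ : DecidablePred fun t : ZMod p × ZMod p => t.2 ≠ 0 ∧ R (t.1 / t.2)} :
    ((univ : Finset (ZMod p × ZMod p)).filter (fun t => t.2 ≠ 0 ∧ R (t.1 / t.2))).card =
      (p - 1) * ((univ : Finset (ZMod p)).filter R).card := by
  rw [← card_ne p, ← card_product]
  symm
  refine card_bij (fun t _ => (t.2 * t.1, t.1)) ?_ ?_ ?_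
  · rintro ⟨c, t⟩ h
    simp only [mem_product, mem_filter, mem_univ, true_and] at h ⊢
    refine ⟨h.1, ?_⟩
    rw [mul_div_cancel_right₀ _ h.1]
    exact h.2
  · rintro ⟨c, t⟩ h ⟨c', t'⟩ h' e
    simp only [mem_product, mem_filter, mem_univ, true_and, Prod.mk.injEq] at h h' e ⊢
    obtain ⟨e1, e2⟩ := e
    subst e2
    exact ⟨rfl, mul_right_cancel₀ h.1 e1⟩
  · rintro ⟨a, c⟩ h
    simp only [mem_filter, mem_univ, true_and] at h
    refine ⟨(c, a / c), ?_, ?_⟩
    · simp only [mem_product, mem_filter, mem_univ, true_and]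
      exact h
    · simp only [Prod.mk.injEq, and_true]
      exact div_mul_cancel₀ _ h.1

theorem sq_card (p : ℕ) [Fact p.Prime] (hp : 5 ≤ p) (s a : ZMod p) :
    (((univ : Finset (ZMod p)).filter (fun t => (t + s) ^ 2 = a)).card : ℤ) =
      quadraticChar (ZMod p) a + 1 := by
  have hc : ringChar (ZMod p) ≠ 2 := by
    rw [ZMod.ringChar_zmod_n]
    omega
  rw [← quadraticChar_card_sqrts hc a]
  congr 1
  refine card_bij (fun t _ => t + s) ?_ ?_ ?_
  · intro t h
    simpa using h
  · intro t _ t' _ e
    exact add_right_cancel e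
  · intro t h
    refine ⟨t - s, ?_, by ring⟩
    simpa using h

theorem R_card (p : ℕ) [Fact p.Prime] (hp : 5 ≤ p) :
    (((univ : Finset (ZMod p)).filter (fun t => (t ^ 2 - 1) ^ 4 = (2 * t) ^ 4)).card : ℤ) =
      (quadraticChar (ZMod p) (-1) + 1) + 2 * (quadraticChar (ZMod p) 2 + 1) := by
  have h20 : (2 : ZMod p) ≠ 0 := by
    intro h
    have h1 : ((2 : ℕ) : ZMod p) = 0 := by exact_mod_cast h
    rw [ZMod.natCast_eq_zero_iff] at h1
    have := Nat.le_of_dvd (by norm_num) h1
    omega
  have h1 := sq_card p hp 0 (-1)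
  have h2 := sq_card p hp 1 2
  have h3 := sq_card p hp (-1) 2
  have e : (univ : Finset (ZMod p)).filter (fun t => (t ^ 2 - 1) ^ 4 = (2 * t) ^ 4) =
      (univ.filter (fun t : ZMod p => (t + 0) ^ 2 = -1) ∪ univ.filter (fun t : ZMod p => (t + 1) ^ 2 = 2)) ∪
        univ.filter (fun t : ZMod p => (t + -1) ^ 2 = 2) := by
    ext t
    simp only [mem_filter, mem_univ, true_and, mem_union]
    constructor
    · intro h
      have h4 : (t ^ 2 + 1) ^ 2 * (((t + 1) ^ 2 - 2) * ((t + -1) ^ 2 - 2)) = 0 := by
        linear_combination h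
      rcases mul_eq_zero.1 h4 with h5 | h5
      · left; left
        have h6 := pow_eq_zero_iff (two_ne_zero) |>.1 h5
        linear_combination h6
      · rcases mul_eq_zero.1 h5 with h6 | h6
        · left; right
          linear_combination h6
        · right
          linear_combination h6
    · rintro ((h | h) | h)
      · linear_combination ((t ^ 2 + 1) * (((t + 1) ^ 2 - 2) * ((t + -1) ^ 2 - 2))) * h
      · linear_combination ((t ^ 2 + 1) ^ 2 * ((t + -1) ^ 2 - 2)) * h
      · linear_combination ((t ^ 2 + 1) ^ 2 * ((t + 1) ^ 2 - 2)) * h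
  have d1 : Disjoint (univ.filter (fun t : ZMod p => (t + 0) ^ 2 = -1))
      (univ.filter (fun t : ZMod p => (t + 1) ^ 2 = 2)) := by
    rw [disjoint_left]
    intro t h4 h5
    simp only [mem_filter, mem_univ, true_and] at h4 h5
    have h6 : 2 * (t - 1) = 0 := by linear_combination h5 - h4
    have h7 := (mul_eq_zero.1 h6).resolve_left h20
    apply h20
    linear_combination (-(t + 1)) * h7 + h4
  have d2 : Disjoint (univ.filter (fun t : ZMod p => (t + 0) ^ 2 = -1) ∪
      univ.filter (fun t : ZMod p => (t + 1) ^ 2 = 2))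
      (univ.filter (fun t : ZMod p => (t + -1) ^ 2 = 2)) := by
    rw [disjoint_left]
    intro t h4 h5
    simp only [mem_filter, mem_univ, true_and, mem_union] at h4 h5
    rcases h4 with h4 | h4
    · have h6 : 2 * (t + 1) = 0 := by linear_combination h4 - h5
      have h7 := (mul_eq_zero.1 h6).resolve_left h20
      apply h20
      linear_combination (-(t - 1)) * h7 + h4
    · have h6 : 2 * (2 * t) = 0 := by linear_combination h4 - h5
      have h7 := (mul_eq_zero.1 ((mul_eq_zero.1 h6).resolve_left h20)).resolve_left h20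
      rw [h7] at h4
      have h8 : (1 : ZMod p) = 0 := by linear_combination -h4
      exact one_ne_zero h8
  rw [e, card_union_of_disjoint d2, card_union_of_disjoint d1]
  push_cast
  rw [h1, h2, h3]
  ring

theorem t_DEN8 : Pool.Agent.N870.EC.S_DEN8 := by
  intro p hpp hp
  have : Fact p.Prime := ⟨hpp⟩
  have h20 : (2 : ZMod p) ≠ 0 := by
    intro h
    have h1 : ((2 : ℕ) : ZMod p) = 0 := by exact_mod_cast h
    rw [ZMod.natCast_eq_zero_iff] at h1
    have := Nat.le_of_dvd (by norm_num) h1
    omega
  have hc : ringChar (ZMod p) ≠ 2 := by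
    rw [ZMod.ringChar_zmod_n]
    omega
  have hodd : p % 2 = 1 := by
    rcases hpp.eq_two_or_odd with h | h
    · omega
    · exact h
  constructor
  · rw [transfer p hp _ (fun t => (t.1 ^ 2 - t.2 ^ 2) ^ 4 = (2 * t.1 * t.2) ^ 4 ∧
      quadraticChar (ZMod p) (-(t.1 ^ 2 - t.2 ^ 2) ^ 4) = 1)]
    · have h1 : ∀ a : ZMod p, quadraticChar (ZMod p) (-a ^ 4) = 1 ↔ a ≠ 0 ∧ p % 4 = 1 := by
        intro a
        by_cases ha : a = 0
        · subst ha
          simp
        · have e1 : -a ^ 4 = (-1) * (a ^ 2) ^ 2 := by ring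
          rw [e1, map_mul, quadraticChar_sq_one' (pow_ne_zero 2 ha), mul_one,
            quadraticChar_neg_one hc, ZMod.card]
          have h4 : p % 4 = 1 ∨ p % 4 = 3 := by omega
          rcases h4 with h4 | h4
          · rw [ZMod.χ₄_nat_one_mod_four h4]
            simp [ha, h4]
          · rw [ZMod.χ₄_nat_three_mod_four h4]
            simp [h4]
      by_cases h4 : p % 4 = 1
      · rw [if_pos h4]
        have e : (univ : Finset (ZMod p × ZMod p)).filter (fun t =>
            (t.1 ^ 2 - t.2 ^ 2) ^ 4 = (2 * t.1 * t.2) ^ 4 ∧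
            quadraticChar (ZMod p) (-(t.1 ^ 2 - t.2 ^ 2) ^ 4) = 1) =
            univ.filter (fun t : ZMod p × ZMod p => t.2 ≠ 0 ∧
              ((t.1 / t.2) ^ 2 - 1) ^ 4 = (2 * (t.1 / t.2)) ^ 4) := by
          ext ⟨a, c⟩
          simp only [mem_filter, mem_univ, true_and, h1, h4, and_true]
          constructor
          · rintro ⟨h5, h6⟩
            have hc0 : c ≠ 0 := by
              intro h
              subst h
              apply h6
              have h7 : (a ^ 2) ^ 4 = 0 := by linear_combination h5
              rw [pow_eq_zero_iff (by norm_num)] at h7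
              linear_combination h7
            refine ⟨hc0, ?_⟩
            field_simp
            linear_combination h5
          · rintro ⟨hc0, h5⟩
            obtain ⟨t, rfl⟩ : ∃ t, a = t * c := ⟨a / c, (div_mul_cancel₀ _ hc0).symm⟩
            rw [mul_div_cancel_right₀ _ hc0] at h5
            refine ⟨by linear_combination c ^ 8 * h5, ?_⟩
            intro h6
            have h7 : (t ^ 2 - 1) * c ^ 2 = 0 := by linear_combination h6
            have h8 := (mul_eq_zero.1 h7).resolve_right (pow_ne_zero 2 hc0)
            rw [h8] at h5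
            have h9 : 2 * t = 0 := by
              have h10 : (2 * t) ^ 4 = 0 := by rw [← h5]; ring
              exact pow_eq_zero_iff (by norm_num) |>.1 h10
            have h11 := (mul_eq_zero.1 h9).resolve_left h20
            rw [h11] at h8
            have h12 : (1 : ZMod p) = 0 := by linear_combination -h8
            exact one_ne_zero h12
        rw [e, cone p (fun t => (t ^ 2 - 1) ^ 4 = (2 * t) ^ 4)]
        congr 1
        have h5 := R_card p hp
        rw [quadraticChar_neg_one hc, quadraticChar_two hc, ZMod.card,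
          ZMod.χ₄_nat_one_mod_four h4, ZMod.χ₈_nat_eq_if_mod_eight] at h5
        have h8 : p % 8 = 1 ∨ p % 8 = 5 := by omega
        rcases h8 with h8 | h8
        · rw [if_neg (by omega), if_pos (Or.inl h8)] at h5
          rw [if_pos h8]
          omega
        · rw [if_neg (by omega), if_neg (by omega)] at h5
          rw [if_neg (by omega)]
          omega
      · rw [if_neg h4, if_neg (by omega), mul_zero, mul_zero, add_zero, mul_zero, card_eq_zero]
        ext ⟨a, b⟩
        simp only [mem_filter, mem_univ, h1, h4, and_false]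
        simp
    · rintro ⟨a, b⟩
      simp only
      rw [← ZMod.intCast_zmod_eq_zero_iff_dvd, jac]
      unfold Pool.Agent.N870.EC.M8 Pool.Agent.N870.EC.N8
      push_cast
      refine and_congr ?_ (by
        have : (-((a : ZMod p) ^ 2 - 4 * (b : ZMod p) ^ 2) ^ 4) =
          (-((a : ZMod p) ^ 2 - (2 * (b : ZMod p)) ^ 2) ^ 4) := by ring
        rw [this])
      constructor
      · intro h
        linear_combination -h
      · intro h
        linear_combination -h
  · rw [transfer p hp _ (fun t => t.2 = 0 ∨ (t.2 ≠ 0 ∧ (t.1 / t.2 = 0 ∨ t.1 / t.2 = 1 ∨ t.1 / t.2 = -1)))]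
    · rw [filter_or, card_union_of_disjoint, cone p (fun t => t = 0 ∨ t = 1 ∨ t = -1)]
      · have e : (univ : Finset (ZMod p)).filter (fun t => t = 0 ∨ t = 1 ∨ t = -1) = {0, 1, -1} := by
          ext t
          simp
        have hB : ((univ : Finset (ZMod p × ZMod p)).filter (fun t => t.2 = 0)).card = p := by
          have e : (univ : Finset (ZMod p × ZMod p)).filter (fun t => t.2 = 0) =
              univ ×ˢ ({0} : Finset (ZMod p)) := by
            ext ⟨a, b⟩
            simp [eq_comm]
          rw [e, card_product, card_singleton, mul_one, card_univ, ZMod.card]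
        rw [hB, e, card_insert_of_notMem, card_insert_of_notMem, card_singleton]
        · omega
        · simp only [mem_singleton]
          intro h
          apply h20
          linear_combination h
        · simp only [mem_insert, mem_singleton]
          rintro (h | h)
          · exact one_ne_zero h.symm
          · have h12 : (1 : ZMod p) = 0 := by linear_combination h
            exact one_ne_zero h12
      · rw [disjoint_left]
        rintro ⟨a, c⟩ h5 h6
        simp only [mem_filter, mem_univ, true_and] at h5 h6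
        exact h6.1 h5
    · rintro ⟨a, b⟩
      simp only
      rw [← ZMod.intCast_zmod_eq_zero_iff_dvd]
      unfold Pool.Agent.N870.EC.M8 Pool.Agent.N870.EC.N8
      push_cast
      obtain ⟨c, hc'⟩ : ∃ c : ZMod p, c = 2 * (b : ZMod p) := ⟨_, rfl⟩
      obtain ⟨x, hx⟩ : ∃ x : ZMod p, x = (a : ZMod p) := ⟨_, rfl⟩
      have e1 : -(((a : ZMod p) ^ 2 - 4 * (b : ZMod p) ^ 2) ^ 4) * -((4 * (a : ZMod p) * (b : ZMod p)) ^ 4) =
          ((x ^ 2 - c ^ 2) * (2 * x * c)) ^ 4 := by
        rw [hc', hx]; ring
      rw [e1, ← hc', ← hx, pow_eq_zero_iff (by norm_num)]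
      constructor
      · intro h
        by_cases hc0 : c = 0
        · exact Or.inl hc0
        · refine Or.inr ⟨hc0, ?_⟩
          rcases mul_eq_zero.1 h with h5 | h5
          · have h6 : (x - c) * (x + c) = 0 := by linear_combination h5
            rcases mul_eq_zero.1 h6 with h7 | h7
            · right; left
              rw [div_eq_one_iff_eq hc0]
              linear_combination h7
            · right; right
              rw [div_eq_iff hc0]
              linear_combination h7
          · left
            have h6 := (mul_eq_zero.1 h5).resolve_right hc0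
            have h7 := (mul_eq_zero.1 h6).resolve_left h20
            rw [h7, zero_div]
      · rintro (h | ⟨hc0, h⟩)
        · rw [h]; ring
        · rcases h with h | h | h
          · rw [div_eq_zero_iff] at h
            rw [h.resolve_right hc0]; ring
          · rw [div_eq_one_iff_eq hc0] at h
            rw [h]; ring
          · rw [div_eq_iff hc0] at h
            rw [h]; ring

end Pool.Agent.N401.EC
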